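import Pool.Agent.Lib.MP_1ba768_gt.RecMain
import Pool.Agent.Lib.MP_1ba768_gt.RecDefs

namespace Pool.Agent.Results.MP_1ba768_gt.Recipe

open Pool.Agent.Lib.MP_1ba768_gt.Rec MvPolynomial

theorem result (n : ℕ) (hn : 1 ≤ n) (w : Fin (n + 1) → ℕ) (d : ℕ)
    (f : MvPolynomial (Fin (n + 1)) ℂ) (hw : ∀ i, 0 < w i) (hd : 0 < d)
    (hf : ∀ l : ℂ, l ≠ 0 → ∀ z, eval (fun i => l ^ w i * z i) f = l ^ d * eval z f)
    (hq : ∀ z, eval z f = 0 → (∀ i, eval z (pderiv i f) = 0) → z = 0) :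
    ∃ D : Fin (rr w d) → ℕ, (∀ j, 0 < D j ∧ (D j : ℚ) = dd w d (j + 1)) ∧
      Nonempty (AddCommGroup.torsion (Hsing (n - 1) (Link f)) ≃+
        DirectSum (Fin (rr w d)) fun j => ZMod (D j)) :=
  main hn w d f hw hd hf hq

end Pool.Agent.Results.MP_1ba768_gt.Recipe
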